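import Pool.Agent.H11.LB.Nonsym
import Pool.Agent.H87.LB.Star
import Pool.Agent.H32.LB.StepE
import Pool.Agent.H62.LB.Adapt

/-!
# Not LERF, and a subgroup of finite index with a non-symmetric invariant

MP_fc7159_al, the last step.
-/

set_option autoImplicit false

noncomputable section

namespace LB

variable {G : Type} [Group G]

/-- The conclusion for one group. -/
theorem Published.conclusion (P : Published G) :
    ¬ IsLERF G ∧ ∃ H : Subgroup G, H.FiniteIndex ∧ ¬ SymmetricSigma H := by
  obtain ⟨g, hg, hsh⟩ := P.exists_unshadowed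
  obtain ⟨H, hH, ψ, h1, h2⟩ := P.exists_character hg
    (P.exists_eta_of hg fun S hS hgS B => P.star g (P.u_ne hg) hsh S hS hgS B)
  refine ⟨not_isLERF H (fg_of_finiteIndex P.A P.genA H hH) ψ h2 h1, H, hH, fun hsym => h1 ?_⟩
  have h3 := (hsym (fun h => -(((ψ h).toAdd : ℤ) : ℝ))).1 h2
  have e : -(fun h : H => -(((ψ h).toAdd : ℤ) : ℝ)) = fun h => (((ψ h).toAdd : ℤ) : ℝ) := by
    funext h
    simp
  rwa [e] at h3

end LB
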