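import Pool.Agent.H14.LB.Hyp
import Pool.Agent.H11.FB.Eta

/-!
# The small homomorphism, from the published facts

MP_fc7159_al.  The wall, the lines of the second flow and the closed orbit `g` of the first flow
form a `WallLines`, so `exists_eta` applies.
-/

set_option autoImplicit false

open scoped Pointwise

noncomputable section

namespace LB

open Pool.Agent.H11.FB

variable {G : Type} [Group G]

/-- the powers of an element of non-zero height are not trivial -/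
theorem pow_ne_one_of_height (u : G →* Multiplicative ℤ) {g : G} (hg : 0 < (u g).toAdd) (n : ℕ)
    (hn : 0 < n) : g ^ n ≠ 1 := by
  intro h
  have h1 : (u (g ^ n)).toAdd = 0 := by rw [h]; simp
  rw [map_pow, toAdd_pow, nsmul_eq_mul] at h1
  have h2 : (0 : ℤ) < n := by exact_mod_cast hn
  nlinarith

/-- no power of a skewering element is in the stabiliser -/
theorem zpow_notMem {S : Subgroup G} {U : Set G} {g : G}
    (hSU : ∀ s ∈ S, ∀ x, s * x ∈ U ↔ x ∈ U)
    (hg : ∃ n0 : ℕ, ∀ n : ℕ, n0 ≤ n → g ^ n ∈ U ∧ (g ^ n)⁻¹ ∉ U) :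
    ∀ n : ℤ, n ≠ 0 → g ^ n ∉ S := by
  obtain ⟨n0, h0⟩ := hg
  have key : ∀ n : ℕ, 0 < n → g ^ n ∉ S := by
    intro n hn hS
    have h1 : g ^ (n * n0) ∈ S := by
      rw [pow_mul]
      exact S.pow_mem hS n0
    have h2 : n0 ≤ n * n0 := Nat.le_mul_of_pos_left n0 hn
    obtain ⟨h3, h4⟩ := h0 (n * n0) h2
    have h5 := (hSU _ h1 1)
    have h6 := (hSU _ (S.inv_mem h1) 1)
    rw [mul_one] at h5 h6
    exact h4 (h6.2 (h5.1 h3))
  intro n hn hS
  rcases lt_or_gt_of_ne hn with h | h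
  · have h1 := S.inv_mem hS
    rw [← zpow_neg] at h1
    lift -n to ℕ using by omega with k hk
    rw [zpow_natCast] at h1
    exact key k (by omega) h1
  · lift n to ℕ using h.le with k
    rw [zpow_natCast] at hS
    exact key k (by omega) hS

/-- The homomorphism `η`. The two hypotheses are the modules STAR and STEPE. -/
theorem Published.exists_eta_of (P : Published G) {g : G} (hg : P.Φ₁.ClosedOrbit g)
    (star : ∀ S : Subgroup G, QuasiConvex P.A S → (∀ n : ℤ, n ≠ 0 → g ^ n ∉ S) → ∀ B : Finset G,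
      ∃ m : ℕ, 0 < m ∧ ∀ γ : ℤ → G, P.Φ₂.IsLine γ → ∀ j : ℤ, j ≠ 0 → ∀ a b : ℤ,
        γ a ∈ (S : Set G) * (B : Set G) →
          (g ^ ((m : ℤ) * j))⁻¹ * γ b ∉ (S : Set G) * (B : Set G)) :
    ∃ m : ℕ, 0 < m ∧ ∀ R : ℕ, 0 < R → ∃ (H : Subgroup G) (η : H →* Multiplicative ℤ)
      (hm : g ^ m ∈ H), H.FiniteIndex ∧ (η ⟨g ^ m, hm⟩).toAdd = 1 ∧
        ∀ p : H, P.Φ₂.ClosedOrbit (p : G) → (R : ℤ) * |(η p).toAdd| ≤ -(P.u (p : G)).toAdd := by
  classical
  obtain ⟨k0, hk0, hu0, -⟩ := P.Φ₁.closedOrbit_line hg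
  have hpos : 0 < (P.u g).toAdd := by
    rw [hu0]
    exact_mod_cast hk0
  obtain ⟨S, U, hS, hSU, hU, hgU⟩ := P.walls g (pow_ne_one_of_height P.u hpos)
  obtain ⟨E, hE⟩ := P.Φ₂.exists_steps
  choose Bs hBs using hU
  obtain ⟨m, hm, hstar⟩ := star S hS (zpow_notMem hSU hgU) ((insert g E).biUnion Bs)
  let W : WallLines G :=
    { S := S
      U := U
      A := insert g E
      B := (insert g E).biUnion Bs
      L := {γ | P.Φ₂.IsLine γ}
      g := g
      smul_U := by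
        intro s hs
        ext x
        rw [Set.mem_smul_set_iff_inv_smul_mem, smul_eq_mul]
        exact hSU _ (S.inv_mem hs) x
      near := by
        intro a ha x hx
        obtain ⟨s, hs, b, hb, h⟩ := Set.mem_mul.1 (hBs a x hx)
        exact ⟨s, hs, b, Finset.mem_biUnion.2 ⟨a, ha, hb⟩, h.symm⟩
      near_all := by
        intro a
        refine ⟨Bs a, fun x hx => ?_⟩
        obtain ⟨s, hs, b, hb, h⟩ := Set.mem_mul.1 (hBs a x hx)
        exact ⟨s, hs, b, hb, h.symm⟩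
      smul_L := fun γ hγ x => P.Φ₂.isLine_smul x hγ
      step_L := fun γ hγ k => Finset.mem_insert_of_mem (hE γ hγ k)
      g_mem := Finset.mem_insert_self _ _ }
  have hstar' : W.Star m := by
    intro γ hγ i j l hi hj
    by_contra hl
    obtain ⟨s, hs, b, hb, e⟩ := hi
    obtain ⟨s', hs', b', hb', e'⟩ := hj
    refine hstar γ hγ l hl i j (Set.mem_mul.2 ⟨s, hs, b, hb, e.symm⟩)
      (Set.mem_mul.2 ⟨s', hs', b', hb', ?_⟩)
    rw [e', zpow_mul, zpow_natCast, inv_mul_cancel_left]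
  have hS1 : (W.SgS m) =
      (S : Set G) * (Subgroup.zpowers (g ^ m) : Set G) * (S : Set G) := by
    ext x
    constructor
    · rintro ⟨s, hs, l, s', hs', rfl⟩
      exact Set.mul_mem_mul (Set.mul_mem_mul hs (Subgroup.zpow_mem_zpowers _ l)) hs'
    · intro hx
      obtain ⟨y, hy, s', hs', rfl⟩ := Set.mem_mul.1 hx
      obtain ⟨s, hs, z, hz, rfl⟩ := Set.mem_mul.1 hy
      obtain ⟨l, rfl⟩ := Subgroup.mem_zpowers_iff.1 hz
      exact ⟨s, hs, l, s', hs', rfl⟩
  have hS2 : (W.gS m) =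
      (Subgroup.zpowers (g ^ m) : Set G) * (S : Set G) * (S : Set G) := by
    ext x
    constructor
    · rintro ⟨l, s', hs', rfl⟩
      refine Set.mem_mul.2 ⟨(g ^ m) ^ l * s', Set.mul_mem_mul (Subgroup.zpow_mem_zpowers _ l) hs',
        1, S.one_mem, mul_one _⟩
    · intro hx
      obtain ⟨y, hy, s', hs', rfl⟩ := Set.mem_mul.1 hx
      obtain ⟨z, hz, s, hs, rfl⟩ := Set.mem_mul.1 hy
      obtain ⟨l, rfl⟩ := Subgroup.mem_zpowers_iff.1 hz
      exact ⟨l, s * s', S.mul_mem hs hs', mul_assoc _ _ _⟩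
  have hsep : Separable (W.SgS m) := by
    rw [hS1]
    exact P.separable S _ S hS (P.cyclic _ (P.u_pow_ne hg hm)) hS
  have hsep' : Separable (W.gS m) := by
    rw [hS2]
    exact P.separable _ S S (P.cyclic _ (P.u_pow_ne hg hm)) hS hS
  obtain ⟨n0, hn0⟩ := hgU
  have h1 : ∀ i : ℤ, (n0 : ℤ) ≤ i → W.g ^ i ∈ W.U := by
    intro i hi
    lift i to ℕ using (Int.natCast_nonneg n0).trans hi
    rw [zpow_natCast]
    exact (hn0 i (by exact_mod_cast hi)).1
  have h2 : ∀ i : ℤ, (n0 : ℤ) ≤ i → W.g ^ (-i) ∉ W.U := by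
    intro i hi
    lift i to ℕ using (Int.natCast_nonneg n0).trans hi
    rw [zpow_neg, zpow_natCast]
    exact (hn0 i (by exact_mod_cast hi)).2
  refine ⟨m, hm, fun R hR => ?_⟩
  obtain ⟨H, η, hgH, hfin, hone, hbound⟩ := W.exists_eta h1 h2 hm hstar' hsep hsep' hR
  refine ⟨H, η, hgH, hfin, hone, fun p hp => ?_⟩
  obtain ⟨k, hk, huk, γ, hγ, hγk⟩ := P.Φ₂.closedOrbit_line hp
  have h3 := hbound p⁻¹ γ k hγ fun i => by
    rw [Subgroup.coe_inv, inv_inv]
    exact hγk i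
  rw [map_inv, toAdd_inv, abs_neg] at h3
  rw [MonoidHom.inv_apply, toAdd_inv] at huk
  rw [huk]
  exact h3

end LB
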