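import Pool.Agent.H11.LB.Glue
import Pool.Agent.H11.FB.Cone

/-!
# A subgroup of finite index with a non-symmetric invariant

MP_fc7159_al.  From the small homomorphism and the description of the two components of `Σ¹(H)`
we get an integral character which is not in `Σ¹(H)`, while its opposite is.
-/

set_option autoImplicit false

open scoped Topology

noncomputable section

namespace LB

open Pool.Agent.H11.FB

variable {G : Type} [Group G]

theorem isChar_hom {H : Type} [Group H] (f : H →* Multiplicative ℝ) :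
    IsChar (fun h => (f h).toAdd) := by
  intro x y
  change (f (x * y)).toAdd = (f x).toAdd + (f y).toAdd
  rw [map_mul, toAdd_mul]

theorem isChar_intHom {H : Type} [Group H] (f : H →* Multiplicative ℤ) :
    IsChar (fun h => (((f h).toAdd : ℤ) : ℝ)) := by
  intro x y
  change (((f (x * y)).toAdd : ℤ) : ℝ) = (((f x).toAdd : ℤ) : ℝ) + (((f y).toAdd : ℤ) : ℝ)
  rw [map_mul, toAdd_mul, Int.cast_add]

theorem IsChar.add {H : Type} [Group H] {v w : H → ℝ} (hv : IsChar v) (hw : IsChar w) (a b : ℝ) :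
    IsChar (fun h => a * v h + b * w h) := by
  intro x y
  change a * v (x * y) + b * w (x * y) = (a * v x + b * w x) + (a * v y + b * w y)
  rw [hv, hw]
  ring

/-- A character which is not negative on the closed orbits of the finite set and vanishes on one of
them is not in `Σ¹`. -/
theorem Published.not_mem_of_zero (P : Published G) (H : Subgroup G) (hH : H.FiniteIndex)
    {Z : Finset H} (hZ : ∀ z ∈ Z, P.Φ₁.ClosedOrbit (z : G))
    (hfin : ∀ v : H → ℝ, IsChar v → (∀ z ∈ Z, 0 < v z) →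
      ∀ h : H, P.Φ₁.ClosedOrbit (h : G) → 0 < v h)
    (hu : ∀ z ∈ Z, 0 < (P.u (z : G)).toAdd)
    (v : H → ℝ) (hv : IsChar v) (hnn : ∀ z ∈ Z, 0 ≤ v z) (h0 : ∃ z ∈ Z, v z = 0) :
    v ∉ sigmaOne H := by
  intro hmem
  have hu' : ∀ z ∈ Z, 0 < height P.u H z := by
    intro z hz
    change (0 : ℝ) < (((P.u (z : G)).toAdd : ℤ) : ℝ)
    exact_mod_cast hu z hz
  have huchar : IsChar (height P.u H) := isChar_intHom (P.u.comp H.subtype)
  let path : ℝ → H → ℝ := fun s h => (1 - s) * v h + s * height P.u H h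
  have hpath : ∀ s ∈ Set.Icc (0 : ℝ) 1, path s ∈ sigmaOne H := by
    rintro s ⟨hs0, hs1⟩
    rcases hs0.eq_or_lt with rfl | hs
    · have : path 0 = v := by
        funext h
        change (1 - 0) * v h + 0 * height P.u H h = v h
        ring
      rw [this]
      exact hmem
    · have hchar : IsChar (path s) := hv.add huchar (1 - s) s
      have hposZ : ∀ z ∈ Z, 0 < path s z := by
        intro z hz
        have h1 : 0 ≤ (1 - s) * v z := mul_nonneg (by linarith) (hnn z hz)
        have h2 : 0 < s * height P.u H z := mul_pos hs (hu' z hz)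
        change 0 < (1 - s) * v z + s * height P.u H z
        linarith
      have h3 : path s ∈ connectedComponentIn (sigmaOne H) (height P.u H) := by
        rw [P.cone₁ H hH]
        exact ⟨hchar, hfin _ hchar hposZ⟩
      exact connectedComponentIn_subset _ _ h3
  have hcont : Continuous path := by
    refine continuous_pi fun h => ?_
    change Continuous fun s : ℝ => (1 - s) * v h + s * height P.u H h
    fun_prop
  have hpre : IsPreconnected (path '' Set.Icc (0 : ℝ) 1) :=
    isPreconnected_Icc.image _ hcont.continuousOn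
  have hone : height P.u H ∈ path '' Set.Icc (0 : ℝ) 1 := by
    refine ⟨1, ⟨zero_le_one, le_refl _⟩, ?_⟩
    funext h
    change (1 - 1) * v h + 1 * height P.u H h = height P.u H h
    ring
  have hzero : v ∈ path '' Set.Icc (0 : ℝ) 1 := by
    refine ⟨0, ⟨le_refl _, zero_le_one⟩, ?_⟩
    funext h
    change (1 - 0) * v h + 0 * height P.u H h = v h
    ring
  have hsub := hpre.subset_connectedComponentIn hone (by
    rintro _ ⟨s, hs, rfl⟩
    exact hpath s hs)
  have h4 := hsub hzero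
  rw [P.cone₁ H hH] at h4
  obtain ⟨z, hz, hz0⟩ := h0
  have h5 := h4.2 z (hZ z hz)
  rw [hz0] at h5
  exact lt_irrefl _ h5

/-- An integral character of a subgroup of finite index which is not in `Σ¹`, while its opposite
is. The hypothesis is the output of `Published.exists_eta_of`. -/
theorem Published.exists_character (P : Published G) {g : G} (hg : P.Φ₁.ClosedOrbit g)
    (hη : ∃ m : ℕ, 0 < m ∧ ∀ R : ℕ, 0 < R → ∃ (H : Subgroup G) (η : H →* Multiplicative ℤ)
      (hm : g ^ m ∈ H), H.FiniteIndex ∧ (η ⟨g ^ m, hm⟩).toAdd = 1 ∧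
        ∀ p : H, P.Φ₂.ClosedOrbit (p : G) → (R : ℤ) * |(η p).toAdd| ≤ -(P.u (p : G)).toAdd) :
    ∃ H : Subgroup G, H.FiniteIndex ∧ ∃ ψ : H →* Multiplicative ℤ,
      (fun h => (((ψ h).toAdd : ℤ) : ℝ)) ∉ sigmaOne H ∧
        (fun h => -(((ψ h).toAdd : ℤ) : ℝ)) ∈ sigmaOne H := by
  obtain ⟨m, hm, hη⟩ := hη
  obtain ⟨k0, hk0, hu0, -⟩ := P.Φ₁.closedOrbit_line hg
  obtain ⟨H, η, hgH, hfinH, hone, hbound⟩ := hη (m * k0 + 1) (Nat.succ_pos _)
  obtain ⟨Z, hZ, hfin⟩ := P.finite₁ H hfinH
  have hpos₁ : ∀ z : H, P.Φ₁.ClosedOrbit (z : G) → 0 < (P.u (z : G)).toAdd := by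
    intro z hz
    obtain ⟨k, hk, hu, -⟩ := P.Φ₁.closedOrbit_line hz
    rw [hu]
    exact_mod_cast hk
  have hneg₂ : ∀ z : H, P.Φ₂.ClosedOrbit (z : G) → (P.u (z : G)).toAdd < 0 := by
    intro z hz
    obtain ⟨k, hk, hu, -⟩ := P.Φ₂.closedOrbit_line hz
    rw [MonoidHom.inv_apply, toAdd_inv] at hu
    have : (1 : ℤ) ≤ k := by exact_mod_cast hk
    linarith
  have hgm : P.Φ₁.ClosedOrbit (((⟨g ^ m, hgH⟩ : H) : G)) := P.Φ₁.closedOrbit_pow hg hm
  have hugm : (P.u (g ^ m)).toAdd = m * k0 := by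
    rw [map_pow, toAdd_pow, hu0, nsmul_eq_mul]
  let Sig : Set (H →* Multiplicative ℝ) := {f | (fun h => (f h).toAdd) ∈ sigmaOne H}
  obtain ⟨ψ, hψ1, hψ2⟩ := Pool.Agent.H11.FB.exists_character Sig (P.u.comp H.subtype) η
    (Z : Set H) {z : H | P.Φ₂.ClosedOrbit (z : G)} Z.finite_toSet ((m * k0 + 1 : ℕ) : ℤ)
    (by exact_mod_cast Nat.succ_pos _) ⟨g ^ m, hgH⟩
    (fun z hz => hpos₁ z (hZ z hz)) (fun z hz => hneg₂ z hz) (fun z hz => hbound z hz)
    (by
      rw [hone]
      change (P.u (g ^ m)).toAdd < _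
      rw [hugm]
      push_cast
      linarith)
    (by
      -- the estimate `n v + u > 0` for all `n`
      intro v hv
      by_contra hcon
      push Not at hcon
      set w : ℤ := (v ⟨g ^ m, hgH⟩).toAdd with hw
      have hlt : ∀ n : ℕ, (0 : ℝ) < (n : ℝ) * (w : ℝ) + 1 * ((m * k0 : ℕ) : ℝ) := by
        intro n
        have h1 := hfin (fun h => (n : ℝ) * (((v h).toAdd : ℤ) : ℝ) + 1 * height P.u H h)
          ((isChar_intHom v).add (isChar_intHom (P.u.comp H.subtype)) n 1) (by
            intro z hz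
            have h2 : (0 : ℝ) ≤ (((v z).toAdd : ℤ) : ℝ) := by exact_mod_cast hv z hz
            have h3 : (0 : ℝ) < (((P.u (z : G)).toAdd : ℤ) : ℝ) := by
              exact_mod_cast hpos₁ z (hZ z hz)
            have h4 : (0 : ℝ) ≤ (n : ℝ) := Nat.cast_nonneg n
            change (0 : ℝ) < (n : ℝ) * (((v z).toAdd : ℤ) : ℝ) +
              1 * (((P.u (z : G)).toAdd : ℤ) : ℝ)
            nlinarith [mul_nonneg h4 h2]) ⟨g ^ m, hgH⟩ hgm
        have h5 : height P.u H ⟨g ^ m, hgH⟩ = ((m * k0 : ℕ) : ℝ) := by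
          change (((P.u (g ^ m)).toAdd : ℤ) : ℝ) = _
          rw [hugm]
          push_cast
          ring
        rw [h5] at h1
        exact h1
      have h6 := hlt (m * k0 + 1)
      have h7 : (w : ℝ) ≤ -1 := by
        have : w ≤ -1 := by omega
        exact_mod_cast this
      have h8 : (0 : ℝ) ≤ ((m * k0 : ℕ) : ℝ) := Nat.cast_nonneg _
      push_cast at h6 h8
      nlinarith)
    (by
      intro v hv h0 hmem
      refine P.not_mem_of_zero H hfinH hZ hfin (fun z hz => hpos₁ z (hZ z hz))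
        (fun h => (v h).toAdd) (isChar_hom v) (fun z hz => hv z hz) ?_ hmem
      obtain ⟨z, hz, hz0⟩ := h0
      exact ⟨z, hz, hz0⟩)
    (by
      intro v hv
      have h1 : (fun h => (v h).toAdd) ∈
          connectedComponentIn (sigmaOne H) (height P.u⁻¹ H) := by
        rw [P.cone₂ H hfinH]
        exact ⟨isChar_hom v, fun h hh => hv h hh⟩
      have h2 : (fun h => (v h).toAdd) ∈ sigmaOne H := connectedComponentIn_subset _ _ h1
      exact h2)
  refine ⟨H, hfinH, ψ, hψ1, ?_⟩
  have h9 : (fun h => (Pool.Agent.H11.FB.toReal ψ⁻¹ h).toAdd) ∈ sigmaOne H := hψ2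
  have h10 : (fun h => (Pool.Agent.H11.FB.toReal ψ⁻¹ h).toAdd) =
      fun h : H => -(((ψ h).toAdd : ℤ) : ℝ) := by
    funext h
    rw [toAdd_toReal, MonoidHom.inv_apply, toAdd_inv, Int.cast_neg]
  rwa [h10] at h9

end LB
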